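import Pool.Agent.W169.HF.DefsNF

set_option autoImplicit false

/-! Multiplicative functions with Euler factors of degree two, their Dirichlet inverses. Leaf EC of
helper52's project HY, part 1 (mostly as in `W355.UN`, `Y771.GL.MF`, with light imports). -/

open Complex Finset UpperHalfPlane MatrixGroups CongruenceSubgroup

namespace Pool.Agent.K9h63.EC

/-- Euler products of degree two, roots of absolute value at most one, `e p` the product of the roots -/
structure Eu (e b : ℕ → ℂ) : Prop where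
  one : b 1 = 1
  mul : ∀ m n : ℕ, Nat.Coprime m n → b (m * n) = b m * b n
  pow : ∀ p : ℕ, p.Prime → ∃ u v : ℂ, ‖u‖ ≤ 1 ∧ ‖v‖ ≤ 1 ∧ b p = u + v ∧ e p = u * v
  rcr : ∀ p : ℕ, p.Prime → ∀ k : ℕ, b (p ^ (k + 2)) = b p * b (p ^ (k + 1)) - e p * b (p ^ k)

variable {e b : ℕ → ℂ}

theorem pow_le (u v : ℂ) (hu : ‖u‖ ≤ 1) (hv : ‖v‖ ≤ 1) (F : ℕ → ℂ) (h0 : F 0 = 1) (h1 : F 1 = u + v)
    (h2 : ∀ k, F (k + 2) = (u + v) * F (k + 1) - u * v * F k) (k : ℕ) : ‖F k‖ ≤ k + 1 := by
  have h3 : ∀ k, F (k + 1) - u * F k = v ^ (k + 1) := by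
    intro k
    induction k with
    | zero => rw [h1, h0]; ring
    | succ k ih => rw [h2]; linear_combination v * ih
  induction k with
  | zero => rw [h0]; simp
  | succ k ih =>
    have h4 : F (k + 1) = u * F k + v ^ (k + 1) := by linear_combination h3 k
    rw [h4]
    refine (norm_add_le _ _).trans ?_
    rw [norm_mul, norm_pow]
    have h5 : ‖v‖ ^ (k + 1) ≤ 1 := pow_le_one₀ (norm_nonneg _) hv
    have h6 : ‖u‖ * ‖F k‖ ≤ 1 * (k + 1) := mul_le_mul hu ih (norm_nonneg _) zero_le_one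
    push_cast
    linarith

theorem Eu.le (h : Eu e b) {n : ℕ} (hn : n ≠ 0) : ‖b n‖ ≤ n.divisors.card := by
  revert hn
  induction n using Nat.recOnPosPrimePosCoprime with
  | prime_pow p k hp hk =>
    intro _
    rw [Nat.divisors_prime_pow hp, Finset.card_map, Finset.card_range]
    push_cast
    obtain ⟨u, v, hu, hv, h1, h2⟩ := h.pow p hp
    refine pow_le u v hu hv (fun k => b (p ^ k)) ?_ ?_ (fun k => ?_) k
    · show b (p ^ 0) = 1
      rw [pow_zero]; exact h.one
    · show b (p ^ 1) = u + v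
      rw [pow_one, h1]
    · show b (p ^ (k + 2)) = (u + v) * b (p ^ (k + 1)) - u * v * b (p ^ k)
      rw [← h1, ← h2]
      exact h.rcr p hp k
  | zero => exact fun h => absurd rfl h
  | one => intro _; rw [h.one]; simp
  | coprime a b ha hb hab iha ihb =>
    intro _
    rw [h.mul a b hab, norm_mul, Nat.Coprime.card_divisors_mul hab]
    push_cast
    exact mul_le_mul (iha (by omega)) (ihb (by omega)) (norm_nonneg _) (Nat.cast_nonneg _)

/-! ### the inverse -/

/-- local values of the inverse -/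
noncomputable def ml (e b : ℕ → ℂ) (p j : ℕ) : ℂ :=
  if j = 0 then 1 else if j = 1 then -b p else if j = 2 then e p else 0

/-- the inverse -/
noncomputable def mf (e b : ℕ → ℂ) (n : ℕ) : ℂ :=
  if n = 0 then 0 else ∏ p ∈ n.primeFactors, ml e b p (n.factorization p)

theorem mf_one : mf e b 1 = 1 := by
  unfold mf
  simp

theorem mf_prime_pow {p : ℕ} (hp : p.Prime) (j : ℕ) : mf e b (p ^ j) = ml e b p j := by
  rcases Nat.eq_zero_or_pos j with rfl | hj
  · simp [mf_one, ml]
  · unfold mf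
    rw [if_neg (pow_ne_zero _ hp.ne_zero), Nat.primeFactors_prime_pow hj.ne' hp, prod_singleton,
      Nat.Prime.factorization_pow hp, Finsupp.single_eq_same]

theorem mf_mul {m n : ℕ} (h : Nat.Coprime m n) : mf e b (m * n) = mf e b m * mf e b n := by
  by_cases hm : m = 0
  · subst hm
    simp [mf]
  by_cases hn : n = 0
  · subst hn
    simp [mf]
  unfold mf
  rw [if_neg (mul_ne_zero hm hn), if_neg hm, if_neg hn, h.primeFactors_mul,
    prod_union h.disjoint_primeFactors]
  congr 1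
  · refine prod_congr rfl fun p hp => ?_
    have h1 : (m * n).factorization p = m.factorization p := by
      rw [Nat.factorization_mul hm hn, Finsupp.add_apply]
      have : n.factorization p = 0 := by
        apply Nat.factorization_eq_zero_of_not_dvd
        intro h2
        have h3 := Nat.dvd_of_mem_primeFactors hp
        have h4 := Nat.dvd_gcd h3 h2
        rw [h.gcd_eq_one] at h4
        exact (Nat.prime_of_mem_primeFactors hp).one_lt.ne' (Nat.dvd_one.1 h4)
      rw [this, add_zero]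
    rw [h1]
  · refine prod_congr rfl fun p hp => ?_
    have h1 : (m * n).factorization p = n.factorization p := by
      rw [Nat.factorization_mul hm hn, Finsupp.add_apply]
      have : m.factorization p = 0 := by
        apply Nat.factorization_eq_zero_of_not_dvd
        intro h2
        have h3 := Nat.dvd_of_mem_primeFactors hp
        have h4 := Nat.dvd_gcd h2 h3
        rw [h.gcd_eq_one] at h4
        exact (Nat.prime_of_mem_primeFactors hp).one_lt.ne' (Nat.dvd_one.1 h4)
      rw [this, zero_add]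
    rw [h1]

/-- as arithmetic functions -/
noncomputable def af (f : ℕ → ℂ) : ArithmeticFunction ℂ := ⟨fun n => if n = 0 then 0 else f n, by simp⟩

theorem af_apply {f : ℕ → ℂ} {n : ℕ} (hn : n ≠ 0) : af f n = f n := by
  show (if n = 0 then 0 else f n) = f n
  rw [if_neg hn]

theorem af_mult {f : ℕ → ℂ} (h1 : f 1 = 1) (h : ∀ m n : ℕ, Nat.Coprime m n → f (m * n) = f m * f n) :
    (af f).IsMultiplicative := by
  refine ⟨by rw [af_apply one_ne_zero, h1], ?_⟩
  intro m n hmn
  by_cases hm : m = 0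
  · subst hm; simp
  by_cases hn : n = 0
  · subst hn; simp
  rw [af_apply hm, af_apply hn, af_apply (mul_ne_zero hm hn), h m n hmn]

theorem conv_prime_pow (H : Eu e b) {p : ℕ} (hp : p.Prime) (k : ℕ) (hk : 1 ≤ k) :
    ∑ i ∈ range (k + 1), ml e b p i * b (p ^ (k - i)) = 0 := by
  rcases Nat.lt_or_ge k 2 with h | h
  · have : k = 1 := by omega
    subst this
    rw [sum_range_succ, sum_range_one]
    simp [ml, H.one]
  · obtain ⟨j, rfl⟩ : ∃ j, k = j + 2 := ⟨k - 2, by omega⟩
    rw [← Finset.sum_subset (s₁ := range 3)]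
    · rw [sum_range_succ, sum_range_succ, sum_range_one]
      have e1 : j + 2 - 0 = j + 2 := rfl
      have e2 : j + 2 - 1 = j + 1 := rfl
      have e3 : j + 2 - 2 = j := rfl
      rw [e1, e2, e3, H.rcr p hp j]
      simp only [ml]
      norm_num
      ring
    · intro x hx
      simp only [mem_range] at hx ⊢
      omega
    · intro x hx hx2
      simp only [mem_range] at hx hx2
      unfold ml
      rw [if_neg (by omega), if_neg (by omega), if_neg (by omega), zero_mul]

theorem inverse (H : Eu e b) : af b * af (mf e b) = 1 := by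
  have hA : (af (mf e b)).IsMultiplicative := af_mult mf_one fun m n h => mf_mul h
  have hB : (af b).IsMultiplicative := af_mult H.one H.mul
  rw [mul_comm]
  rw [(hA.mul hB).eq_iff_eq_on_prime_powers _ _ ArithmeticFunction.isMultiplicative_one]
  intro p k hp
  rcases Nat.eq_zero_or_pos k with rfl | hk
  · simp [ArithmeticFunction.mul_apply, af_apply, mf_one, H.one]
  · rw [ArithmeticFunction.mul_apply, Nat.sum_divisorsAntidiagonal
      (fun a c => af (mf e b) a * af b c), Nat.divisors_prime_pow hp, sum_map]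
    rw [ArithmeticFunction.one_apply_ne (by
      have := Nat.one_lt_pow hk.ne' hp.one_lt
      omega)]
    rw [← conv_prime_pow H hp k hk]
    refine sum_congr rfl fun i hi => ?_
    rw [mem_range] at hi
    have h1 : p ^ i ≠ 0 := pow_ne_zero _ hp.ne_zero
    have h2 : p ^ k / p ^ i = p ^ (k - i) := Nat.pow_div (by omega) hp.pos
    simp only [Function.Embedding.coeFn_mk]
    rw [h2, af_apply h1, af_apply (pow_ne_zero _ hp.ne_zero), mf_prime_pow hp]

theorem mf_le (H : Eu e b) {n : ℕ} (hn : n ≠ 0) : ‖mf e b n‖ ≤ n.divisors.card := by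
  revert hn
  induction n using Nat.recOnPosPrimePosCoprime with
  | prime_pow p k hp hk =>
    intro _
    rw [Nat.divisors_prime_pow hp, Finset.card_map, Finset.card_range, mf_prime_pow hp]
    push_cast
    obtain ⟨u, v, hu, hv, h1, h2⟩ := H.pow p hp
    have hk0 : (0 : ℝ) ≤ k := Nat.cast_nonneg _
    unfold ml
    split_ifs with h3 h4 h5
    · rw [norm_one]; linarith
    · rw [norm_neg, h1, h4]
      refine (norm_add_le _ _).trans ?_
      push_cast
      linarith
    · rw [h2, norm_mul, h5]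
      have : ‖u‖ * ‖v‖ ≤ 1 := mul_le_one₀ hu (norm_nonneg _) hv
      push_cast
      linarith
    · rw [norm_zero]; linarith
  | zero => exact fun h => absurd rfl h
  | one => intro _; rw [mf_one]; simp
  | coprime a c ha hc hac iha ihc =>
    intro _
    rw [mf_mul hac, norm_mul, Nat.Coprime.card_divisors_mul hac]
    push_cast
    exact mul_le_mul (iha (by omega)) (ihc (by omega)) (norm_nonneg _) (Nat.cast_nonneg _)

/-! ### newforms of weight two -/

open Pool.Agent.W169.HF (IsForm coef)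

variable {N : ℕ} {f : CuspForm (Gamma0 N : Subgroup (GL (Fin 2) ℝ)) 2} {w : ℝ}

/-- the normalised coefficients -/
noncomputable def lam (f : CuspForm (Gamma0 N : Subgroup (GL (Fin 2) ℝ)) 2) (n : ℕ) : ℂ :=
  coef f n * ((((n : ℝ) ^ (-(1 / 2 : ℝ)) : ℝ)) : ℂ)

/-- the roots of `X² - λ X + 1` for real `λ`, `|λ| ≤ 2` -/
lemma roots_one {lam : ℝ} (h : |lam| ≤ 2) : ∃ u v : ℂ, ‖u‖ ≤ 1 ∧ ‖v‖ ≤ 1 ∧ (lam : ℂ) = u + v ∧ u * v = 1 := by
  obtain ⟨h1, h2⟩ := abs_le.1 h
  refine ⟨cexp (Real.arccos (lam / 2) * Complex.I), cexp (-(Real.arccos (lam / 2) * Complex.I)), ?_, ?_, ?_, ?_⟩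
  · rw [Complex.norm_exp_ofReal_mul_I]
  · rw [← neg_mul, ← Complex.ofReal_neg, Complex.norm_exp_ofReal_mul_I]
  · have h3 : Real.cos (Real.arccos (lam / 2)) = lam / 2 := Real.cos_arccos (by linarith) (by linarith)
    have h4 : (2 : ℂ) * Complex.cos (Real.arccos (lam / 2)) =
        cexp (Real.arccos (lam / 2) * Complex.I) + cexp (-(Real.arccos (lam / 2)) * Complex.I) :=
      Complex.two_cos _
    rw [← Complex.ofReal_cos, h3] at h4
    rw [← neg_mul, ← h4]
    push_cast
    ring
  · rw [← Complex.exp_add, add_neg_cancel, Complex.exp_zero]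

lemma rp_mul (m n : ℕ) : ((((m * n : ℕ) : ℝ) ^ (-(1 / 2 : ℝ)) : ℝ) : ℂ) =
    (((m : ℝ) ^ (-(1 / 2 : ℝ)) : ℝ) : ℂ) * (((n : ℝ) ^ (-(1 / 2 : ℝ)) : ℝ) : ℂ) := by
  rw [← Complex.ofReal_mul, ← Real.mul_rpow (Nat.cast_nonneg _) (Nat.cast_nonneg _)]
  push_cast
  rfl

theorem eu_of (hf : IsForm N f w) : Eu (fun p => if p ∣ N then 0 else 1) (lam f) := by
  have hp2 : ∀ p : ℕ, p.Prime → ∃ x : ℝ, lam f p = (x : ℂ) ∧ (p ∣ N → |x| ≤ 1) ∧ (¬ p ∣ N → |x| ≤ 2) := by
    intro p hp
    have hp0 : (0 : ℝ) < p := by exact_mod_cast hp.pos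
    have hsp : 0 < Real.sqrt p := Real.sqrt_pos.2 hp0
    have hreal : coef f p = (((coef f p).re : ℝ) : ℂ) := by
      apply Complex.ext
      · simp
      · rw [hf.real p]; simp
    have hr : (p : ℝ) ^ (-(1 / 2 : ℝ)) = 1 / Real.sqrt p := by
      rw [Real.rpow_neg hp0.le, ← Real.sqrt_eq_rpow, one_div]
    refine ⟨(coef f p).re / Real.sqrt p, ?_, fun h => ?_, fun h => ?_⟩
    · unfold lam
      conv_lhs => rw [hreal]
      rw [hr, ← Complex.ofReal_mul]
      congr 1
      rw [mul_one_div]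
    · have h1 := hf.bad p hp h
      rw [hreal, Complex.norm_real, Real.norm_eq_abs] at h1
      rw [abs_div, abs_of_pos hsp, div_le_one hsp]
      exact h1
    · have h1 := hf.good p hp h
      rw [hreal, Complex.norm_real, Real.norm_eq_abs] at h1
      rw [abs_div, abs_of_pos hsp, div_le_iff₀ hsp]
      exact h1
  refine ⟨?_, fun m n hmn => ?_, fun p hp => ?_, fun p hp k => ?_⟩
  · unfold lam
    rw [hf.one]
    simp
  · unfold lam
    rw [hf.mul m n hmn, rp_mul]
    ring
  · obtain ⟨x, hx, hx1, hx2⟩ := hp2 p hp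
    by_cases hpN : p ∣ N
    · refine ⟨(x : ℂ), 0, ?_, by simp, by rw [hx, add_zero], ?_⟩
      · rw [Complex.norm_real]; exact hx1 hpN
      · show (if p ∣ N then (0 : ℂ) else 1) = _
        rw [if_pos hpN, mul_zero]
    · obtain ⟨u, v, hu, hv, h3, h4⟩ := roots_one (hx2 hpN)
      refine ⟨u, v, hu, hv, by rw [hx, h3], ?_⟩
      show (if p ∣ N then (0 : ℂ) else 1) = _
      rw [if_neg hpN, h4]
  · have hp0 : (0 : ℝ) < p := by exact_mod_cast hp.pos
    have hsp : 0 < Real.sqrt p := Real.sqrt_pos.2 hp0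
    have hr : (p : ℝ) ^ (-(1 / 2 : ℝ)) = 1 / Real.sqrt p := by
      rw [Real.rpow_neg hp0.le, ← Real.sqrt_eq_rpow, one_div]
    have hpp : ∀ k : ℕ, (((p ^ (k + 1) : ℕ) : ℝ) ^ (-(1 / 2 : ℝ)) : ℝ) =
        (p : ℝ) ^ (-(1 / 2 : ℝ)) * ((p ^ k : ℕ) : ℝ) ^ (-(1 / 2 : ℝ)) := fun k => by
      rw [← Real.mul_rpow hp0.le (Nat.cast_nonneg _)]
      congr 1
      push_cast
      ring
    have hsq : (p : ℝ) * ((p : ℝ) ^ (-(1 / 2 : ℝ)) * (p : ℝ) ^ (-(1 / 2 : ℝ))) = 1 := by
      rw [hr]
      have := Real.mul_self_sqrt hp0.le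
      field_simp
      nlinarith
    have h2 := hf.pow p k hp
    show lam f (p ^ (k + 2)) = lam f p * lam f (p ^ (k + 1)) - (if p ∣ N then 0 else 1) * lam f (p ^ k)
    unfold lam
    rw [h2, hpp (k + 1)]
    split_ifs with hpN
    · push_cast
      ring
    · rw [hpp k]
      have hsqc : (p : ℂ) * ((((p : ℝ) ^ (-(1 / 2 : ℝ)) : ℝ) : ℂ) * (((p : ℝ) ^ (-(1 / 2 : ℝ)) : ℝ) : ℂ)) = 1 := by
        exact_mod_cast hsq
      simp only [Complex.ofReal_mul]
      linear_combination (-(coef f (p ^ k)) * (((p ^ k : ℕ) : ℝ) ^ (-(1 / 2 : ℝ)) : ℝ)) * hsqc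

end Pool.Agent.K9h63.EC
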