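import Pool.Agent.K9h52.HY.Stm
import Pool.Agent.K9h63.EC1
import Pool.Agent.W388.TW.Good
import Pool.Agent.W440.TW.Twist
import Pool.Agent.W108.TW.Mellin
import Pool.Agent.W820.TW.FE

set_option autoImplicit false

/-! Leaf EC of helper52's project HY. -/

open Complex Finset UpperHalfPlane MatrixGroups CongruenceSubgroup

namespace Pool.Agent.K9h63.EC

open Pool.Agent.W169.HF (IsForm coef)

section
variable {N : ℕ} {f : CuspForm (Gamma0 N : Subgroup (GL (Fin 2) ℝ)) 2} {w : ℝ}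

theorem isNewf_of (hf : IsForm N f w) : W388.IsNewf N 2 f w := by
  refine ⟨hf.one, hf.real, hf.mul, fun p j hp => ?_, hf.sign, fun τ τ' h => ?_⟩
  · have := hf.pow p j hp
    unfold coef at this
    rw [this]
    norm_num
  · rw [hf.fricke τ τ' h]
    have hN : ((Real.sqrt N : ℝ) : ℂ) ^ 2 = N := by
      rw [← Complex.ofReal_pow, Real.sq_sqrt (Nat.cast_nonneg _), Complex.ofReal_natCast]
    have e : (((Real.sqrt N : ℝ) : ℂ) * (τ : ℂ) / Complex.I) ^ (2 : ℤ) = -((N : ℂ) * (τ : ℂ) ^ 2) := by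
      have : (((Real.sqrt N : ℝ) : ℂ) * (τ : ℂ) / Complex.I) ^ (2 : ℤ) =
          (((Real.sqrt N : ℝ) : ℂ) * (τ : ℂ) / Complex.I) ^ 2 := rfl
      rw [this, div_pow, mul_pow, hN, Complex.I_sq]
      ring
    rw [e]
    ring

theorem lamf_lam [NeZero N] (hf : IsForm N f w) (n : ℕ) : (W388.lamf f n : ℂ) = lam f n := by
  have h1 := W388.coeff_real (isNewf_of hf) n
  unfold W388.lamf lam coef
  conv_rhs => rw [h1]
  rw [← Complex.ofReal_mul]
  congr 1
  rw [div_eq_mul_inv, ← Real.rpow_neg (Nat.cast_nonneg _)]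
  congr 2
  norm_num

end

open ArithmeticFunction in
theorem sum_d {x : ℝ} (hx : 1 < x) : Summable (fun n : ℕ => (n.divisors.card : ℝ) * (n : ℝ) ^ (-x)) := by
  have h1 : LSeriesSummable (fun n => (ArithmeticFunction.zeta : ArithmeticFunction ℂ) n) (x : ℂ) := by
    have := (LSeriesSummable_zeta_iff (s := (x : ℂ))).2 (by simpa using hx)
    simpa using this
  have h2 := LSeriesSummable_mul h1 h1
  have h3 : ∀ n : ℕ, ((ArithmeticFunction.zeta : ArithmeticFunction ℂ) *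
      (ArithmeticFunction.zeta : ArithmeticFunction ℂ)) n = (n.divisors.card : ℂ) := by
    intro n
    rw [← natCoe_mul, natCoe_apply]
    congr 1
    have h5 : (zeta * zeta : ArithmeticFunction ℕ) n = ∑ i ∈ n.divisors, zeta i := by
      have := coe_zeta_mul_apply (R := ℕ) (f := zeta) (x := n)
      rwa [natCoe_nat] at this
    rw [h5, Finset.sum_congr rfl (fun i hi => by
      rw [zeta_apply_ne (Nat.pos_of_mem_divisors hi).ne'])]
    simp
  have h4 := h2.norm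
  refine h4.congr fun n => ?_
  unfold LSeries.term
  split_ifs with h0
  · subst h0; simp
  · show ‖((ArithmeticFunction.zeta : ArithmeticFunction ℂ) *
      (ArithmeticFunction.zeta : ArithmeticFunction ℂ)) n / (n : ℂ) ^ (x : ℂ)‖ = _
    rw [h3, norm_div, Complex.norm_natCast, Complex.norm_natCast_cpow_of_pos (Nat.pos_of_ne_zero h0),
      Complex.ofReal_re, Real.rpow_neg (Nat.cast_nonneg _), div_eq_mul_inv]

/-- the termwise bound -/
theorem term_le {N : ℕ} {f : CuspForm (Gamma0 N : Subgroup (GL (Fin 2) ℝ)) 2} {w : ℝ}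
    (hf : IsForm N f w) {q : ℕ} (χ : DirichletCharacter ℂ q) {s : ℂ} {x : ℝ} (hx : x ≤ s.re) (n : ℕ) :
    ‖χ (n : ZMod q) * lam f n * (n : ℂ) ^ (-s)‖ ≤ (n.divisors.card : ℝ) * (n : ℝ) ^ (-x) := by
  rcases Nat.eq_zero_or_pos n with h0 | h0
  · subst h0
    have : lam f 0 = 0 := by
      unfold lam
      have : (((0 : ℕ) : ℝ) ^ (-(1 / 2 : ℝ))) = 0 := by
        rw [Nat.cast_zero, Real.zero_rpow (by norm_num)]
      rw [this]
      simp
    rw [this]
    simp
  · rw [norm_mul, norm_mul, Complex.norm_natCast_cpow_of_pos h0]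
    have h1 : ‖lam f n‖ ≤ n.divisors.card := (eu_of hf).le h0.ne'
    have h2 : (n : ℝ) ^ (-s).re ≤ (n : ℝ) ^ (-x) := by
      apply Real.rpow_le_rpow_of_exponent_le
      · exact_mod_cast h0
      · rw [Complex.neg_re]; linarith
    have h3 : ‖χ (n : ZMod q)‖ ≤ 1 := χ.norm_le_one _
    calc ‖χ (n : ZMod q)‖ * ‖lam f n‖ * (n : ℝ) ^ (-s).re ≤
        1 * n.divisors.card * (n : ℝ) ^ (-x) := by gcongr
      _ = _ := by rw [one_mul]

/-- the growth in the half-plane -/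
theorem growth {N Q B : ℝ} (hN : 1 ≤ N) (hQ : 1 ≤ Q) (hB1 : 1 ≤ B) {F : ℂ → ℂ}
    (hF : W388.FE2 2 N Q F) (hB : ∀ s : ℂ, 3 / 2 ≤ s.re → ‖F s‖ ≤ B) (s : ℂ) (h1 : 1 / 4 ≤ s.re) :
    ‖F s‖ ≤ (2 * (B * N) * 25) * (Q * (1 + |s.im|)) ^ 2 := by
  have hBN : 1 ≤ B * N := by nlinarith
  have hQ0 : (0 : ℝ) < Q := by linarith
  have ht0 : 0 ≤ |s.im| := abs_nonneg _
  have hqt : 1 ≤ Q * (1 + |s.im|) := by nlinarith
  rcases le_total s.re (3 / 2) with h | h
  · have e1 := Pool.Agent.W820.TW.HH_bound (k := 2) (by norm_num) hN hQ hF hB s (by linarith) h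
    have ec : (((2 : ℤ) : ℝ) - 1) / 2 = 1 / 2 := by norm_num
    rw [ec] at e1
    unfold Pool.Agent.W820.TW.HH at e1
    rw [norm_mul, norm_mul, norm_inv, norm_pow, Complex.norm_cpow_eq_rpow_re_of_pos hQ0] at e1
    have hre : (s - 3 / 2).re = s.re - 3 / 2 := by rw [Complex.sub_re]; norm_num
    rw [hre] at e1
    have hre' : (s + 3 + ((1 / 2 : ℝ) : ℂ)).re = s.re + 3 + 1 / 2 := by simp
    have him' : (s + 3 + ((1 / 2 : ℝ) : ℂ)).im = s.im := by simp
    have e2 : 0 < ‖s + 3 + ((1 / 2 : ℝ) : ℂ)‖ ^ 2 := by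
      have : s + 3 + ((1 / 2 : ℝ) : ℂ) ≠ 0 := by
        intro h0
        have := congrArg Complex.re h0
        rw [hre'] at this
        simp at this
        linarith
      positivity
    have e3 : ‖s + 3 + ((1 / 2 : ℝ) : ℂ)‖ ^ 2 ≤ (5 * (1 + |s.im|)) ^ 2 := by
      apply pow_le_pow_left₀ (norm_nonneg _)
      refine (norm_le_abs_re_add_abs_im _).trans ?_
      rw [hre', him', abs_of_nonneg (by linarith)]
      linarith
    have e4 : (Q ^ 2)⁻¹ ≤ Q ^ (s.re - 3 / 2) := by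
      rw [← Real.rpow_natCast, ← Real.rpow_neg hQ0.le]
      apply Real.rpow_le_rpow_of_exponent_le hQ
      push_cast
      linarith
    have e5 : ‖F s‖ * (Q ^ 2)⁻¹ * (‖s + 3 + ((1 / 2 : ℝ) : ℂ)‖ ^ 2)⁻¹ ≤ 2 * (B * N) := by
      refine le_trans ?_ e1
      gcongr
    have e6 : ‖F s‖ ≤ 2 * (B * N) * (‖s + 3 + ((1 / 2 : ℝ) : ℂ)‖ ^ 2) * Q ^ 2 := by
      have hq2 : (0 : ℝ) < Q ^ 2 := by positivity
      have : ‖F s‖ = (‖F s‖ * (Q ^ 2)⁻¹ * (‖s + 3 + ((1 / 2 : ℝ) : ℂ)‖ ^ 2)⁻¹) *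
          (‖s + 3 + ((1 / 2 : ℝ) : ℂ)‖ ^ 2) * Q ^ 2 := by
        have e2' := e2.ne'
        generalize ‖s + 3 + ((1 / 2 : ℝ) : ℂ)‖ ^ 2 = N at e2' ⊢
        field_simp
      rw [this]
      gcongr
    calc ‖F s‖ ≤ 2 * (B * N) * (‖s + 3 + ((1 / 2 : ℝ) : ℂ)‖ ^ 2) * Q ^ 2 := e6
      _ ≤ 2 * (B * N) * ((5 * (1 + |s.im|)) ^ 2) * Q ^ 2 := by gcongr
      _ = _ := by ring
  · have e1 := hB s h
    have e2 : 1 ≤ (Q * (1 + |s.im|)) ^ 2 := by nlinarith
    have h4 : B ≤ B * N := by nlinarith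
    nlinarith

theorem ec : Pool.Agent.K9h52.HY.S_EC := by
  intro N _ f w hf
  have hE := eu_of hf
  have hN1 : (1 : ℝ) ≤ N := by exact_mod_cast Nat.one_le_iff_ne_zero.mpr (NeZero.ne N)
  set B : ℝ := max 1 (∑' n : ℕ, (n.divisors.card : ℝ) * (n : ℝ) ^ (-(3 / 2 : ℝ))) with hBd
  have hB1 : 1 ≤ B := le_max_left _ _
  have hBN : 1 ≤ B * N := by nlinarith
  refine ⟨af (lam f), af (mf (fun p => if p ∣ N then 0 else 1) (lam f)), 2 * (B * N) * 25,
    by linarith, inverse hE, fun n hn => ?_, fun n hn => ?_, fun n hn => ?_, ?_⟩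
  · rw [af_apply (by omega)]; rfl
  · rw [af_apply (by omega)]; exact hE.le (by omega)
  · rw [af_apply (by omega)]; exact mf_le hE (by omega)
  · intro q _ χ hχ hq
    have hq1 : (1 : ℝ) ≤ q := by exact_mod_cast Nat.one_le_iff_ne_zero.mpr (NeZero.ne q)
    have hsum : ∀ (q : ℕ) [NeZero q] (χ : DirichletCharacter ℂ q) (s : ℂ), 1 < s.re →
        Summable (fun n : ℕ => ‖χ (n : ZMod q) * (W388.lamf f n : ℂ) * (n : ℂ) ^ (-s)‖) := by
      intro q _ χ s hs
      refine Summable.of_nonneg_of_le (fun n => norm_nonneg _) (fun n => ?_) (sum_d hs)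
      rw [lamf_lam hf]
      exact term_le hf χ le_rfl n
    obtain ⟨F, hF, hFs⟩ := W388.exists_twist Pool.Agent.W440.TW.t_twist Pool.Agent.W108.TW.t_mellin
      (k := 2) (by norm_num) (isNewf_of hf) hsum q χ hχ hq
    refine ⟨F, hF.diff, fun s hs => ?_, fun s hs => ?_⟩
    · rw [hFs s hs]
      refine tsum_congr fun n => ?_
      rw [lamf_lam hf]
      unfold LSeries.term
      split_ifs with h0
      · subst h0
        have : lam f 0 = 0 := by
          unfold lam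
          have : (((0 : ℕ) : ℝ) ^ (-(1 / 2 : ℝ))) = 0 := by
            rw [Nat.cast_zero, Real.zero_rpow (by norm_num)]
          rw [this]
          simp
        rw [this]
        simp
      · show _ = χ (n : ZMod q) * af (lam f) n / (n : ℂ) ^ s
        rw [af_apply h0, Complex.cpow_neg, div_eq_mul_inv]
    · refine growth hN1 hq1 hB1 (by exact_mod_cast hF) (fun z hz => ?_) s hs
      rw [hFs z (by linarith)]
      have hz1 := hsum q χ z (by linarith)
      refine (norm_tsum_le_tsum_norm hz1).trans (le_trans ?_ (le_max_right _ _))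
      refine hz1.tsum_le_tsum (fun n => ?_) (sum_d (by norm_num))
      rw [lamf_lam hf]
      exact term_le hf χ hz n

end Pool.Agent.K9h63.EC
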