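import Mathlib

/-!
Definitions for the spin Kostka polynomials: Hall-Littlewood polynomials in finitely many
variables, Schur Q-functions through marked shifted tableaux.
-/

namespace Pool.Agent.K9h63.SpinKostka

open Finset

/-- The `i`-th largest part (counted from `0`) of a partition, and `0` beyond the last part. -/
def part {n : ℕ} (μ : Nat.Partition n) (i : ℕ) : ℕ :=
  (μ.parts.sort (· ≥ ·)).getD i 0

/-- The shifted diagram of a partition, rows and columns counted from `0`:
the cells `(i,j)` with `i ≤ j < ξ_i + i`. -/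
def shiftedDiagram {n : ℕ} (ξ : Nat.Partition n) : Finset (ℕ × ℕ) :=
  (Finset.range n ×ˢ Finset.range (2 * n)).filter (fun c => c.1 ≤ c.2 ∧ c.2 < part ξ c.1 + c.1)

/-- Marked shifted tableaux of shape `ξ` with letters `1' < 1 < 2' < 2 < ... < N' < N`.
The letter `(k, false)` stands for the primed letter `(k+1)'`, the letter `(k, true)` for the
unprimed letter `k+1`; the order is lexicographic with `false < true`. -/
structure IsMarkedShifted {n N : ℕ} (ξ : Nat.Partition n)
    (T : shiftedDiagram ξ → Fin N ×ₗ Bool) : Prop where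
  row_weak : ∀ c d, c.1.1 = d.1.1 → c.1.2 ≤ d.1.2 → T c ≤ T d
  col_weak : ∀ c d, c.1.2 = d.1.2 → c.1.1 ≤ d.1.1 → T c ≤ T d
  col_repeat : ∀ c d, c ≠ d → c.1.2 = d.1.2 → T c = T d → (ofLex (T c)).2 = false
  row_repeat : ∀ c d, c ≠ d → c.1.1 = d.1.1 → T c = T d → (ofLex (T c)).2 = true

open Classical in
/-- The Schur Q-function `Q_ξ(x_1,...,x_N)`: the sum over marked shifted tableaux of shape `ξ`
with letters `1',1,...,N',N` of the product of `x_k` over the cells filled with `k` or `k'`. -/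
noncomputable def schurQ {F : Type*} [CommSemiring F] {n N : ℕ} (ξ : Nat.Partition n)
    (x : Fin N → F) : F :=
  ∑ T : shiftedDiagram ξ → Fin N ×ₗ Bool,
    if IsMarkedShifted ξ T then ∏ c, x (ofLex (T c)).1 else 0

/-- `v_m(t) = ∏_{i=1}^m (1 - t^i)/(1 - t)`. -/
noncomputable def vfac {F : Type*} [Field F] (t : F) (m : ℕ) : F :=
  ∏ i ∈ Finset.range m, (1 - t ^ (i + 1)) / (1 - t)

/-- The Hall-Littlewood polynomial `P_μ(x_1,...,x_N;t)` for a partition `μ` with at most `N`
parts, by the formula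
`P_μ = v_μ(t)⁻¹ ∑_{w ∈ S_N} w(x^μ ∏_{i<j} (x_i - t x_j)/(x_i - x_j))`, where
`v_μ(t) = ∏_{k ≥ 0} v_{m_k}(t)` and `m_k` is the number of `i ∈ {1,...,N}` with `μ_i = k`. -/
noncomputable def hallLittlewoodP {F : Type*} [Field F] {n N : ℕ} (t : F) (x : Fin N → F)
    (μ : Nat.Partition n) : F :=
  (∏ k ∈ Finset.range (n + 1), vfac t (#{i : Fin N | part μ i = k}))⁻¹ *
    ∑ w : Equiv.Perm (Fin N), (∏ i, x (w i) ^ part μ i) *
      ∏ i, ∏ j ∈ Finset.Ioi i, (x (w i) - t * x (w j)) / (x (w i) - x (w j))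

/-- The field `ℚ(t)(x_1,...,x_N)`. -/
abbrev RatFn (N : ℕ) : Type := FractionRing (MvPolynomial (Fin N) (RatFunc ℚ))

/-- The element `t` of `ℚ(t)(x_1,...,x_N)`. -/
noncomputable def tt (N : ℕ) : RatFn N := algebraMap (RatFunc ℚ) (RatFn N) RatFunc.X

/-- The variable `x_i` as an element of `ℚ(t)(x_1,...,x_N)`. -/
noncomputable def xx (N : ℕ) (i : Fin N) : RatFn N :=
  algebraMap (MvPolynomial (Fin N) (RatFunc ℚ)) (RatFn N) (MvPolynomial.X i)

/-- The defining expansion of the row `ξ` of the spin Kostka polynomials, read in `N` variables: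
`Q_ξ(x_1,...,x_N) = ∑_μ K_μ(t) P_μ(x_1,...,x_N;t)`, the sum over the partitions `μ` of `|ξ|` with
at most `N` parts. -/
def Expansion {n : ℕ} (N : ℕ) (ξ : Nat.Partition n) (K : Nat.Partition n → RatFunc ℚ) : Prop :=
  schurQ ξ (xx N) = ∑ μ : Nat.Partition n with μ.parts.card ≤ N,
    algebraMap (RatFunc ℚ) (RatFn N) (K μ) * hallLittlewoodP (tt N) (xx N) μ

/-- `K n ξ μ` is the spin Kostka polynomial `K^-_{ξμ}(t)`, for all strict partitions `ξ` and all
partitions `μ` of the same size `n`: for every strict `ξ` the defining expansion holds in every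
number `N` of variables. -/
def IsSpinKostka (K : ∀ n : ℕ, Nat.Partition n → Nat.Partition n → RatFunc ℚ) : Prop :=
  ∀ (n : ℕ) (ξ : Nat.Partition n), ξ.parts.Nodup → ∀ N : ℕ, Expansion N ξ (K n ξ)

/-- The rational function `f(1/t)` for `f = f(t)`. -/
noncomputable def subInv (f : RatFunc ℚ) : RatFunc ℚ :=
  RatFunc.eval (algebraMap ℚ (RatFunc ℚ)) (RatFunc.X)⁻¹ f

end Pool.Agent.K9h63.SpinKostka
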