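import Pool.Agent.K9h63.SpinKostkaDefs
open Finset
namespace Pool.Agent.K9h63.SpinKostka

/-- The partition `(4,2)`. -/
def p42 : Nat.Partition 6 := ⟨{4, 2}, by simp, by simp⟩
/-- The partition `(3,2,1)`. -/
def p321 : Nat.Partition 6 := ⟨{3, 2, 1}, by simp, by simp⟩

theorem sort_eq (l : List ℕ) (h : l.Pairwise (· ≥ ·)) : (l : Multiset ℕ).sort (· ≥ ·) = l := by
  rw [Multiset.coe_sort]
  exact List.mergeSort_of_pairwise (by simpa using h)

theorem part_eq {n : ℕ} (μ : Nat.Partition n) (l : List ℕ) (hl : μ.parts = (l : Multiset ℕ))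
    (h : l.Pairwise (· ≥ ·)) (i : ℕ) : part μ i = l.getD i 0 := by
  rw [part, hl, sort_eq l h]

theorem perm3 {M : Type*} [AddCommMonoid M] (f : Equiv.Perm (Fin 3) → M) :
    ∑ w, f w = f 1 + f (Equiv.swap 0 1) + f (Equiv.swap 0 2) + f (Equiv.swap 1 2) +
      f (Equiv.swap 0 1 * Equiv.swap 1 2) + f (Equiv.swap 1 2 * Equiv.swap 0 1) := by
  have h : (Finset.univ : Finset (Equiv.Perm (Fin 3))) =
    {1, Equiv.swap 0 1, Equiv.swap 0 2, Equiv.swap 1 2, Equiv.swap 0 1 * Equiv.swap 1 2,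
      Equiv.swap 1 2 * Equiv.swap 0 1} := by decide
  rw [h, Finset.sum_insert (by decide), Finset.sum_insert (by decide), Finset.sum_insert (by decide),
    Finset.sum_insert (by decide), Finset.sum_insert (by decide), Finset.sum_singleton]
  simp only [add_assoc]

theorem symm3 {F : Type*} [Field F] (g : Fin 3 → Fin 3 → Fin 3 → F) :
   ∑ w : Equiv.Perm (Fin 3), g (w 0) (w 1) (w 2) = g 0 1 2 + g 1 0 2 + g 2 1 0 + g 0 2 1 + g 1 2 0 + g 2 0 1 := by
  rw [perm3]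
  rfl

theorem Ioi0 : (Finset.Ioi (0 : Fin 3)) = {1, 2} := by decide
theorem Ioi1 : (Finset.Ioi (1 : Fin 3)) = {2} := by decide
theorem Ioi2 : (Finset.Ioi (2 : Fin 3)) = ∅ := by decide

def term {F : Type*} [Field F] (a b c : ℕ) (t x y z : F) : F :=
  x ^ a * y ^ b * z ^ c *
      ((x - t * y) / (x - y) * ((x - t * z) / (x - z)) * ((y - t * z) / (y - z)))

theorem hl_expand {F : Type*} [Field F] {n : ℕ} (t : F) (x : Fin 3 → F) (μ : Nat.Partition n) :
   (∑ w : Equiv.Perm (Fin 3), (∏ i, x (w i) ^ part μ i) *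
      ∏ i, ∏ j ∈ Finset.Ioi i, (x (w i) - t * x (w j)) / (x (w i) - x (w j))) =
   term (part μ 0) (part μ 1) (part μ 2) t (x 0) (x 1) (x 2) +
   term (part μ 0) (part μ 1) (part μ 2) t (x 1) (x 0) (x 2) +
   term (part μ 0) (part μ 1) (part μ 2) t (x 2) (x 1) (x 0) +
   term (part μ 0) (part μ 1) (part μ 2) t (x 0) (x 2) (x 1) +
   term (part μ 0) (part μ 1) (part μ 2) t (x 1) (x 2) (x 0) +
   term (part μ 0) (part μ 1) (part μ 2) t (x 2) (x 0) (x 1) := by
  rw [← symm3 (fun i j k => term (part μ 0) (part μ 1) (part μ 2) t (x i) (x j) (x k))]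
  refine Finset.sum_congr rfl fun w _ => ?_
  simp only [Fin.prod_univ_three, Ioi0, Ioi1, Ioi2, term]
  rw [Finset.prod_pair (by decide)]
  simp

/-! monomial symmetric polynomials of degree 6 in three variables -/
section mono
variable {R : Type*} [CommRing R]

def m6 (x y z : R) : R := x^6 + y^6 + z^6
def m51 (x y z : R) : R := x^5*y + x^5*z + y^5*x + y^5*z + z^5*x + z^5*y
def m42 (x y z : R) : R := x^4*y^2 + x^4*z^2 + y^4*x^2 + y^4*z^2 + z^4*x^2 + z^4*y^2
def m411 (x y z : R) : R := x^4*y*z + y^4*x*z + z^4*x*y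
def m33 (x y z : R) : R := x^3*y^3 + x^3*z^3 + y^3*z^3
def m321 (x y z : R) : R := x^3*y^2*z + x^3*z^2*y + y^3*x^2*z + y^3*z^2*x + z^3*x^2*y + z^3*y^2*x
def m222 (x y z : R) : R := x^2*y^2*z^2

def P6 (t x y z : R) : R := m6 x y z + (1-t)*(m51 x y z + m42 x y z + m33 x y z) +
  (1-t)^2*(m411 x y z + m321 x y z + m222 x y z)
def P51 (t x y z : R) : R := m51 x y z + (1-t)*(m42 x y z + m33 x y z) + 2*(1-t)*m411 x y z +
  (1-t)*(2-t)*m321 x y z + 2*(1-t)^2*m222 x y z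
def P42 (t x y z : R) : R := m42 x y z + (1-t)*m411 x y z + (1-t)*m33 x y z +
  (1-t)*(2-t)*m321 x y z + (3-4*t+2*t^2-t^3)*m222 x y z
def P411 (t x y z : R) : R := m411 x y z + (1-t)*m321 x y z + (1-t)^2*m222 x y z
def P33 (t x y z : R) : R := m33 x y z + (1-t)*m321 x y z + (1-t)^2*m222 x y z
def P321 (t x y z : R) : R := m321 x y z + (2-t-t^2)*m222 x y z
def P222 (x y z : R) : R := m222 x y z
def Q42 (x y z : R) : R := 4 * m42 x y z + 8 * m411 x y z + 8 * m33 x y z + 24 * m321 x y z + 40 * m222 x y z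
end mono

section hl
variable {F : Type*} [Field F] (t x y z : F) (hxy : x ≠ y) (hxz : x ≠ z) (hyz : y ≠ z)

def sumterm (a b c : ℕ) (t x y z : F) : F :=
  term a b c t x y z + term a b c t y x z + term a b c t z y x + term a b c t x z y + term a b c t y z x +
    term a b c t z x y
include hxy hxz hyz

theorem sumterm_mul (a b c : ℕ) :
    sumterm a b c t x y z * ((x-y)*(x-z)*(y-z)) =
      x^a*y^b*z^c*((x-t*y)*(x-t*z)*(y-t*z)) - y^a*x^b*z^c*((y-t*x)*(y-t*z)*(x-t*z))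
      - z^a*y^b*x^c*((z-t*y)*(z-t*x)*(y-t*x)) - x^a*z^b*y^c*((x-t*z)*(x-t*y)*(z-t*y))
      + y^a*z^b*x^c*((y-t*z)*(y-t*x)*(z-t*x)) + z^a*x^b*y^c*((z-t*x)*(z-t*y)*(x-t*y)) := by
  have h1 : x - y ≠ 0 := sub_ne_zero.mpr hxy
  have h2 : x - z ≠ 0 := sub_ne_zero.mpr hxz
  have h3 : y - z ≠ 0 := sub_ne_zero.mpr hyz
  have h4 : y - x ≠ 0 := sub_ne_zero.mpr hxy.symm
  have h5 : z - x ≠ 0 := sub_ne_zero.mpr hxz.symm
  have h6 : z - y ≠ 0 := sub_ne_zero.mpr hyz.symm
  have e1 : y - x = -(x - y) := by ring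
  have e2 : z - x = -(x - z) := by ring
  have e3 : z - y = -(y - z) := by ring
  unfold sumterm term
  rw [e1, e2, e3]
  simp only [div_neg]
  field_simp
  ring

theorem aux (S P v : F) (h : S * ((x-y)*(x-z)*(y-z)) = v * P * ((x-y)*(x-z)*(y-z))) : S = v * P := by
  have h1 : x - y ≠ 0 := sub_ne_zero.mpr hxy
  have h2 : x - z ≠ 0 := sub_ne_zero.mpr hxz
  have h3 : y - z ≠ 0 := sub_ne_zero.mpr hyz
  exact mul_right_cancel₀ (mul_ne_zero (mul_ne_zero h1 h2) h3) h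

theorem s6 : sumterm 6 0 0 t x y z = (1+t) * P6 t x y z := by
  apply aux x y z hxy hxz hyz
  rw [sumterm_mul t x y z hxy hxz hyz]
  unfold P6 m6 m51 m42 m33 m411 m321 m222
  ring
theorem s51 : sumterm 5 1 0 t x y z = 1 * P51 t x y z := by
  apply aux x y z hxy hxz hyz
  rw [sumterm_mul t x y z hxy hxz hyz]
  unfold P51 m51 m42 m33 m411 m321 m222
  ring
theorem s42 : sumterm 4 2 0 t x y z = 1 * P42 t x y z := by
  apply aux x y z hxy hxz hyz
  rw [sumterm_mul t x y z hxy hxz hyz]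
  unfold P42 m42 m33 m411 m321 m222
  ring
theorem s411 : sumterm 4 1 1 t x y z = (1+t) * P411 t x y z := by
  apply aux x y z hxy hxz hyz
  rw [sumterm_mul t x y z hxy hxz hyz]
  unfold P411 m411 m321 m222
  ring
theorem s33 : sumterm 3 3 0 t x y z = (1+t) * P33 t x y z := by
  apply aux x y z hxy hxz hyz
  rw [sumterm_mul t x y z hxy hxz hyz]
  unfold P33 m33 m321 m222
  ring
theorem s321 : sumterm 3 2 1 t x y z = 1 * P321 t x y z := by
  apply aux x y z hxy hxz hyz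
  rw [sumterm_mul t x y z hxy hxz hyz]
  unfold P321 m321 m222
  ring
theorem s222 : sumterm 2 2 2 t x y z = (1+t)*(1+t+t^2) * P222 x y z := by
  apply aux x y z hxy hxz hyz
  rw [sumterm_mul t x y z hxy hxz hyz]
  unfold P222 m222
  ring
end hl

end Pool.Agent.K9h63.SpinKostka
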