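import Pool.Agent.K9h63.SpinKostkaTab
set_option linter.unusedSectionVars false
open Finset
namespace Pool.Agent.K9h63.SpinKostka

/-- 6-tuples as functions -/
def tup : (Fin 6 → A3) ≃ A3 × A3 × A3 × A3 × A3 × A3 where
  toFun g := (g 0, g 1, g 2, g 3, g 4, g 5)
  invFun p := ![p.1, p.2.1, p.2.2.1, p.2.2.2.1, p.2.2.2.2.1, p.2.2.2.2.2]
  left_inv g := by
    funext i
    fin_cases i <;> rfl
  right_inv p := rfl

def X {R : Type*} (x : Fin 3 → R) (a : A3) : R := x (ofLex a).1

def ind (R : Type*) [CommRing R] (p : Prop) [Decidable p] : R := if p then 1 else 0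

theorem ind_and (R : Type*) [CommRing R] (p q : Prop) [Decidable p] [Decidable q] :
    ind R (p ∧ q) = ind R p * ind R q := by
  unfold ind
  by_cases hp : p <;> by_cases hq : q <;> simp [hp, hq]

theorem schurQ_tup {R : Type*} [CommRing R] (x : Fin 3 → R) :
    schurQ p42 x = ∑ a0, ∑ a1, ∑ a2, ∑ a3, ∑ b1, ∑ b2,
      ind R (rowR a0 a1 ∧ rowR a1 a2 ∧ rowR a2 a3 ∧ rowR b1 b2 ∧ colR a1 b1 ∧ colR a2 b2) *
        (X x a0 * X x a1 * X x a2 * X x a3 * X x b1 * X x b2) := by
  classical
  unfold schurQ
  rw [Fintype.sum_equiv (Equiv.arrowCongr cellE.symm (Equiv.refl A3)) _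
    (fun g : Fin 6 → A3 => ind R (rowR (g 0) (g 1) ∧ rowR (g 1) (g 2) ∧ rowR (g 2) (g 3) ∧
      rowR (g 4) (g 5) ∧ colR (g 1) (g 4) ∧ colR (g 2) (g 5)) * ∏ i, X x (g i))]
  · rw [Fintype.sum_equiv tup _ (fun p : A3 × A3 × A3 × A3 × A3 × A3 =>
      ind R (rowR p.1 p.2.1 ∧ rowR p.2.1 p.2.2.1 ∧ rowR p.2.2.1 p.2.2.2.1 ∧
        rowR p.2.2.2.2.1 p.2.2.2.2.2 ∧ colR p.2.1 p.2.2.2.2.1 ∧ colR p.2.2.1 p.2.2.2.2.2) *
      (X x p.1 * X x p.2.1 * X x p.2.2.1 * X x p.2.2.2.1 * X x p.2.2.2.2.1 * X x p.2.2.2.2.2))]
    · simp only [Fintype.sum_prod_type]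
    · intro g
      rw [Fin.prod_univ_six]
      rfl
  · intro T
    have hE : ∀ i, (Equiv.arrowCongr cellE.symm (Equiv.refl A3)) T i = T (cellD i) := by
      intro i
      simp [Equiv.arrowCongr, cellE]
    simp only [hE]
    unfold ind
    have hprod : ∏ c, x (ofLex (T c)).1 = ∏ i, X x (T (cellD i)) :=
      (Fintype.prod_equiv cellE _ _ (fun i => rfl)).symm
    rw [hprod]
    by_cases h : IsMarkedShifted p42 T
    · rw [if_pos h, if_pos ((valid_iff T).mp h), one_mul]
    · rw [if_neg h, if_neg (fun h' => h ((valid_iff T).mpr h')), zero_mul]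

def fL {R : Type*} [CommRing R] (x : Fin 3 → R) (a : A3) : R := ∑ a0, ind R (rowR a0 a) * X x a0
def fR {R : Type*} [CommRing R] (x : Fin 3 → R) (a : A3) : R := ∑ a3, ind R (rowR a a3) * X x a3
def fB {R : Type*} [CommRing R] (x : Fin 3 → R) (a b : A3) : R :=
  ∑ b1, ∑ b2, ind R (rowR b1 b2) * ind R (colR a b1) * ind R (colR b b2) * (X x b1 * X x b2)

theorem schurQ_fac {R : Type*} [CommRing R] (x : Fin 3 → R) :
    schurQ p42 x = ∑ a, ∑ b, ind R (rowR a b) * (X x a * X x b) * (fL x a * (fR x b * fB x a b)) := by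
  rw [schurQ_tup]
  rw [Finset.sum_comm]
  refine Finset.sum_congr rfl fun a _ => ?_
  rw [Finset.sum_comm]
  refine Finset.sum_congr rfl fun b _ => ?_
  rw [fL, Finset.sum_mul, Finset.mul_sum]
  refine Finset.sum_congr rfl fun a0 _ => ?_
  rw [fR, Finset.sum_mul, Finset.mul_sum, Finset.mul_sum]
  refine Finset.sum_congr rfl fun a3 _ => ?_
  rw [fB, Finset.mul_sum, Finset.mul_sum, Finset.mul_sum]
  refine Finset.sum_congr rfl fun b1 _ => ?_
  rw [Finset.mul_sum, Finset.mul_sum, Finset.mul_sum]
  refine Finset.sum_congr rfl fun b2 _ => ?_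
  simp only [ind_and]
  ring


theorem sumA {M : Type*} [AddCommMonoid M] (F : A3 → M) :
    ∑ a, F a = F (toLex (0, false)) + F (toLex (0, true)) + F (toLex (1, false)) +
      F (toLex (1, true)) + F (toLex (2, false)) + F (toLex (2, true)) := by
  have h : (Finset.univ : Finset A3) = {toLex (0, false), toLex (0, true), toLex (1, false),
      toLex (1, true), toLex (2, false), toLex (2, true)} := by decide
  rw [h, Finset.sum_insert (by decide), Finset.sum_insert (by decide), Finset.sum_insert (by decide),
    Finset.sum_insert (by decide), Finset.sum_insert (by decide), Finset.sum_singleton]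
  simp only [add_assoc]

theorem indT {R : Type*} [CommRing R] {p : Prop} [Decidable p] (h : p) : ind R p = 1 := if_pos h
theorem indF {R : Type*} [CommRing R] {p : Prop} [Decidable p] (h : ¬ p) : ind R p = 0 := if_neg h

section ev
variable {R : Type*} [CommRing R]
theorem rw00 : ind R (rowR (toLex (0, false) : A3) (toLex (0, false) : A3)) = 0 := indF (by decide)
theorem cl00 : ind R (colR (toLex (0, false) : A3) (toLex (0, false) : A3)) = 1 := indT (by decide)
theorem rw01 : ind R (rowR (toLex (0, false) : A3) (toLex (0, true) : A3)) = 1 := indT (by decide)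
theorem cl01 : ind R (colR (toLex (0, false) : A3) (toLex (0, true) : A3)) = 1 := indT (by decide)
theorem rw02 : ind R (rowR (toLex (0, false) : A3) (toLex (1, false) : A3)) = 1 := indT (by decide)
theorem cl02 : ind R (colR (toLex (0, false) : A3) (toLex (1, false) : A3)) = 1 := indT (by decide)
theorem rw03 : ind R (rowR (toLex (0, false) : A3) (toLex (1, true) : A3)) = 1 := indT (by decide)
theorem cl03 : ind R (colR (toLex (0, false) : A3) (toLex (1, true) : A3)) = 1 := indT (by decide)
theorem rw04 : ind R (rowR (toLex (0, false) : A3) (toLex (2, false) : A3)) = 1 := indT (by decide)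
theorem cl04 : ind R (colR (toLex (0, false) : A3) (toLex (2, false) : A3)) = 1 := indT (by decide)
theorem rw05 : ind R (rowR (toLex (0, false) : A3) (toLex (2, true) : A3)) = 1 := indT (by decide)
theorem cl05 : ind R (colR (toLex (0, false) : A3) (toLex (2, true) : A3)) = 1 := indT (by decide)
theorem rw10 : ind R (rowR (toLex (0, true) : A3) (toLex (0, false) : A3)) = 0 := indF (by decide)
theorem cl10 : ind R (colR (toLex (0, true) : A3) (toLex (0, false) : A3)) = 0 := indF (by decide)
theorem rw11 : ind R (rowR (toLex (0, true) : A3) (toLex (0, true) : A3)) = 1 := indT (by decide)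
theorem cl11 : ind R (colR (toLex (0, true) : A3) (toLex (0, true) : A3)) = 0 := indF (by decide)
theorem rw12 : ind R (rowR (toLex (0, true) : A3) (toLex (1, false) : A3)) = 1 := indT (by decide)
theorem cl12 : ind R (colR (toLex (0, true) : A3) (toLex (1, false) : A3)) = 1 := indT (by decide)
theorem rw13 : ind R (rowR (toLex (0, true) : A3) (toLex (1, true) : A3)) = 1 := indT (by decide)
theorem cl13 : ind R (colR (toLex (0, true) : A3) (toLex (1, true) : A3)) = 1 := indT (by decide)
theorem rw14 : ind R (rowR (toLex (0, true) : A3) (toLex (2, false) : A3)) = 1 := indT (by decide)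
theorem cl14 : ind R (colR (toLex (0, true) : A3) (toLex (2, false) : A3)) = 1 := indT (by decide)
theorem rw15 : ind R (rowR (toLex (0, true) : A3) (toLex (2, true) : A3)) = 1 := indT (by decide)
theorem cl15 : ind R (colR (toLex (0, true) : A3) (toLex (2, true) : A3)) = 1 := indT (by decide)
theorem rw20 : ind R (rowR (toLex (1, false) : A3) (toLex (0, false) : A3)) = 0 := indF (by decide)
theorem cl20 : ind R (colR (toLex (1, false) : A3) (toLex (0, false) : A3)) = 0 := indF (by decide)
theorem rw21 : ind R (rowR (toLex (1, false) : A3) (toLex (0, true) : A3)) = 0 := indF (by decide)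
theorem cl21 : ind R (colR (toLex (1, false) : A3) (toLex (0, true) : A3)) = 0 := indF (by decide)
theorem rw22 : ind R (rowR (toLex (1, false) : A3) (toLex (1, false) : A3)) = 0 := indF (by decide)
theorem cl22 : ind R (colR (toLex (1, false) : A3) (toLex (1, false) : A3)) = 1 := indT (by decide)
theorem rw23 : ind R (rowR (toLex (1, false) : A3) (toLex (1, true) : A3)) = 1 := indT (by decide)
theorem cl23 : ind R (colR (toLex (1, false) : A3) (toLex (1, true) : A3)) = 1 := indT (by decide)
theorem rw24 : ind R (rowR (toLex (1, false) : A3) (toLex (2, false) : A3)) = 1 := indT (by decide)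
theorem cl24 : ind R (colR (toLex (1, false) : A3) (toLex (2, false) : A3)) = 1 := indT (by decide)
theorem rw25 : ind R (rowR (toLex (1, false) : A3) (toLex (2, true) : A3)) = 1 := indT (by decide)
theorem cl25 : ind R (colR (toLex (1, false) : A3) (toLex (2, true) : A3)) = 1 := indT (by decide)
theorem rw30 : ind R (rowR (toLex (1, true) : A3) (toLex (0, false) : A3)) = 0 := indF (by decide)
theorem cl30 : ind R (colR (toLex (1, true) : A3) (toLex (0, false) : A3)) = 0 := indF (by decide)
theorem rw31 : ind R (rowR (toLex (1, true) : A3) (toLex (0, true) : A3)) = 0 := indF (by decide)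
theorem cl31 : ind R (colR (toLex (1, true) : A3) (toLex (0, true) : A3)) = 0 := indF (by decide)
theorem rw32 : ind R (rowR (toLex (1, true) : A3) (toLex (1, false) : A3)) = 0 := indF (by decide)
theorem cl32 : ind R (colR (toLex (1, true) : A3) (toLex (1, false) : A3)) = 0 := indF (by decide)
theorem rw33 : ind R (rowR (toLex (1, true) : A3) (toLex (1, true) : A3)) = 1 := indT (by decide)
theorem cl33 : ind R (colR (toLex (1, true) : A3) (toLex (1, true) : A3)) = 0 := indF (by decide)
theorem rw34 : ind R (rowR (toLex (1, true) : A3) (toLex (2, false) : A3)) = 1 := indT (by decide)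
theorem cl34 : ind R (colR (toLex (1, true) : A3) (toLex (2, false) : A3)) = 1 := indT (by decide)
theorem rw35 : ind R (rowR (toLex (1, true) : A3) (toLex (2, true) : A3)) = 1 := indT (by decide)
theorem cl35 : ind R (colR (toLex (1, true) : A3) (toLex (2, true) : A3)) = 1 := indT (by decide)
theorem rw40 : ind R (rowR (toLex (2, false) : A3) (toLex (0, false) : A3)) = 0 := indF (by decide)
theorem cl40 : ind R (colR (toLex (2, false) : A3) (toLex (0, false) : A3)) = 0 := indF (by decide)
theorem rw41 : ind R (rowR (toLex (2, false) : A3) (toLex (0, true) : A3)) = 0 := indF (by decide)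
theorem cl41 : ind R (colR (toLex (2, false) : A3) (toLex (0, true) : A3)) = 0 := indF (by decide)
theorem rw42 : ind R (rowR (toLex (2, false) : A3) (toLex (1, false) : A3)) = 0 := indF (by decide)
theorem cl42 : ind R (colR (toLex (2, false) : A3) (toLex (1, false) : A3)) = 0 := indF (by decide)
theorem rw43 : ind R (rowR (toLex (2, false) : A3) (toLex (1, true) : A3)) = 0 := indF (by decide)
theorem cl43 : ind R (colR (toLex (2, false) : A3) (toLex (1, true) : A3)) = 0 := indF (by decide)
theorem rw44 : ind R (rowR (toLex (2, false) : A3) (toLex (2, false) : A3)) = 0 := indF (by decide)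
theorem cl44 : ind R (colR (toLex (2, false) : A3) (toLex (2, false) : A3)) = 1 := indT (by decide)
theorem rw45 : ind R (rowR (toLex (2, false) : A3) (toLex (2, true) : A3)) = 1 := indT (by decide)
theorem cl45 : ind R (colR (toLex (2, false) : A3) (toLex (2, true) : A3)) = 1 := indT (by decide)
theorem rw50 : ind R (rowR (toLex (2, true) : A3) (toLex (0, false) : A3)) = 0 := indF (by decide)
theorem cl50 : ind R (colR (toLex (2, true) : A3) (toLex (0, false) : A3)) = 0 := indF (by decide)
theorem rw51 : ind R (rowR (toLex (2, true) : A3) (toLex (0, true) : A3)) = 0 := indF (by decide)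
theorem cl51 : ind R (colR (toLex (2, true) : A3) (toLex (0, true) : A3)) = 0 := indF (by decide)
theorem rw52 : ind R (rowR (toLex (2, true) : A3) (toLex (1, false) : A3)) = 0 := indF (by decide)
theorem cl52 : ind R (colR (toLex (2, true) : A3) (toLex (1, false) : A3)) = 0 := indF (by decide)
theorem rw53 : ind R (rowR (toLex (2, true) : A3) (toLex (1, true) : A3)) = 0 := indF (by decide)
theorem cl53 : ind R (colR (toLex (2, true) : A3) (toLex (1, true) : A3)) = 0 := indF (by decide)
theorem rw54 : ind R (rowR (toLex (2, true) : A3) (toLex (2, false) : A3)) = 0 := indF (by decide)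
theorem cl54 : ind R (colR (toLex (2, true) : A3) (toLex (2, false) : A3)) = 0 := indF (by decide)
theorem rw55 : ind R (rowR (toLex (2, true) : A3) (toLex (2, true) : A3)) = 1 := indT (by decide)
theorem cl55 : ind R (colR (toLex (2, true) : A3) (toLex (2, true) : A3)) = 0 := indF (by decide)
theorem X0 (x : Fin 3 → R) : X x (toLex (0, false) : A3) = x 0 := rfl
theorem X1 (x : Fin 3 → R) : X x (toLex (0, true) : A3) = x 0 := rfl
theorem X2 (x : Fin 3 → R) : X x (toLex (1, false) : A3) = x 1 := rfl
theorem X3 (x : Fin 3 → R) : X x (toLex (1, true) : A3) = x 1 := rfl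
theorem X4 (x : Fin 3 → R) : X x (toLex (2, false) : A3) = x 2 := rfl
theorem X5 (x : Fin 3 → R) : X x (toLex (2, true) : A3) = x 2 := rfl

theorem schurQ_eval (x : Fin 3 → R) : schurQ p42 x = Q42 (x 0) (x 1) (x 2) := by
  rw [schurQ_fac]
  simp only [sumA, fL, fR, fB, rw00, rw01, rw02, rw03, rw04, rw05, rw10, rw11, rw12, rw13, rw14, rw15, rw20, rw21, rw22, rw23, rw24, rw25, rw30, rw31, rw32, rw33, rw34, rw35, rw40, rw41, rw42, rw43, rw44, rw45, rw50, rw51, rw52, rw53, rw54, rw55, cl00, cl01, cl02, cl03, cl04, cl05, cl10, cl11, cl12, cl13, cl14, cl15, cl20, cl21, cl22, cl23, cl24, cl25, cl30, cl31, cl32, cl33, cl34, cl35, cl40, cl41, cl42, cl43, cl44, cl45, cl50, cl51, cl52, cl53, cl54, cl55, X0, X1, X2, X3, X4, X5, zero_mul, mul_zero, add_zero, zero_add, one_mul, mul_one]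
  unfold Q42 m42 m411 m33 m321 m222
  ring
end ev

end Pool.Agent.K9h63.SpinKostka
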