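import Pool.Agent.K9h63.SpinKostkaHL
set_option linter.unusedSectionVars false
set_option linter.unusedSimpArgs false
open Finset
namespace Pool.Agent.K9h63.SpinKostka

section v
variable {F : Type*} [Field F] (t : F)

theorem vfac0 : vfac t 0 = 1 := by simp [vfac]
theorem vfac1 (ht : 1 - t ≠ 0) : vfac t 1 = 1 := by simp [vfac, ht]
theorem vfac2 (ht : 1 - t ≠ 0) : vfac t 2 = 1 + t := by
  simp only [vfac, Finset.prod_range_succ, Finset.prod_range_zero]
  field_simp
  ring
theorem vfac3 (ht : 1 - t ≠ 0) : vfac t 3 = (1 + t) * (1 + t + t ^ 2) := by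
  simp only [vfac, Finset.prod_range_succ, Finset.prod_range_zero]
  field_simp
  ring

theorem hlP (x : Fin 3 → F) (μ : Nat.Partition 6) (a b c : ℕ) (h : (fun i : Fin 3 => part μ i) = ![a, b, c]) :
    hallLittlewoodP t x μ = (∏ k ∈ range 7, vfac t (#{i : Fin 3 | ![a, b, c] i = k}))⁻¹ *
      sumterm a b c t (x 0) (x 1) (x 2) := by
  have h0 : part μ 0 = a := congrFun h 0
  have h1 : part μ 1 = b := congrFun h 1
  have h2 : part μ 2 = c := congrFun h 2
  unfold hallLittlewoodP
  rw [hl_expand, h0, h1, h2]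
  unfold sumterm
  congr 2
  refine Finset.prod_congr rfl fun k _ => ?_
  congr 2
  ext i
  simp only [Finset.mem_filter, Finset.mem_univ, true_and]
  rw [← h]
end v

section parts
def q6 : Nat.Partition 6 := ⟨{6}, by simp, by simp⟩
def q51 : Nat.Partition 6 := ⟨{5, 1}, by simp, by simp⟩
def q411 : Nat.Partition 6 := ⟨{4, 1, 1}, by simp, by simp⟩
def q33 : Nat.Partition 6 := ⟨{3, 3}, by simp, by simp⟩
def q222 : Nat.Partition 6 := ⟨{2, 2, 2}, by simp, by simp⟩

theorem part_vec (μ : Nat.Partition 6) (l : List ℕ) (hl : μ.parts = (l : Multiset ℕ))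
    (h : l.Pairwise (· ≥ ·)) : (fun i : Fin 3 => part μ i) = ![l.getD 0 0, l.getD 1 0, l.getD 2 0] := by
  funext i
  rw [part_eq μ l hl h]
  fin_cases i <;> rfl

theorem v6 : (fun i : Fin 3 => part q6 i) = ![6, 0, 0] := part_vec q6 [6] rfl (by decide)
theorem v51 : (fun i : Fin 3 => part q51 i) = ![5, 1, 0] := part_vec q51 [5, 1] rfl (by decide)
theorem v42 : (fun i : Fin 3 => part p42 i) = ![4, 2, 0] := part_vec p42 [4, 2] rfl (by decide)
theorem v411 : (fun i : Fin 3 => part q411 i) = ![4, 1, 1] := part_vec q411 [4, 1, 1] rfl (by decide)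
theorem v33 : (fun i : Fin 3 => part q33 i) = ![3, 3, 0] := part_vec q33 [3, 3] rfl (by decide)
theorem v321 : (fun i : Fin 3 => part p321 i) = ![3, 2, 1] := part_vec p321 [3, 2, 1] rfl (by decide)
theorem v222 : (fun i : Fin 3 => part q222 i) = ![2, 2, 2] := part_vec q222 [2, 2, 2] rfl (by decide)

theorem enum6 : (Finset.univ.filter (fun μ : Nat.Partition 6 => μ.parts.card ≤ 3)) =
    {q6, q51, p42, q411, q33, p321, q222} := by
  ext μ
  simp only [Finset.mem_filter, Finset.mem_univ, true_and, Finset.mem_insert, Finset.mem_singleton]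
  have hs := μ.parts_sum
  have hp := fun i (hi : i ∈ μ.parts) => μ.parts_pos hi
  constructor
  · intro h
    have key : μ.parts = {6} ∨ μ.parts = {5, 1} ∨ μ.parts = {4, 2} ∨ μ.parts = {4, 1, 1} ∨
      μ.parts = {3, 3} ∨ μ.parts = {3, 2, 1} ∨ μ.parts = {2, 2, 2} := by
      revert hs hp h
      generalize μ.parts = s
      intro hs hp h
      have h' : s.card = 0 ∨ s.card = 1 ∨ s.card = 2 ∨ s.card = 3 := by omega
      rcases h' with h' | h' | h' | h'
      · rw [Multiset.card_eq_zero] at h'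
        subst h'
        simp at hs
      · obtain ⟨a, rfl⟩ := Multiset.card_eq_one.mp h'
        simp at hs
        subst hs
        simp
      · obtain ⟨a, b, rfl⟩ := Multiset.card_eq_two.mp h'
        have ha := hp a (by simp)
        have hb := hp b (by simp)
        simp at hs
        have ha5 : a ≤ 5 := by omega
        obtain rfl : b = 6 - a := by omega
        interval_cases a <;> decide
      · obtain ⟨a, b, c, rfl⟩ := Multiset.card_eq_three.mp h'
        have ha := hp a (by simp)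
        have hb := hp b (by simp)
        have hc := hp c (by simp)
        simp at hs
        have ha5 : a ≤ 4 := by omega
        have hb5 : b ≤ 4 := by omega
        obtain rfl : c = 6 - a - b := by omega
        interval_cases a <;> interval_cases b <;> first | omega | decide
    rcases key with h | h | h | h | h | h | h
    · left; exact Nat.Partition.ext h
    · right; left; exact Nat.Partition.ext h
    · right; right; left; exact Nat.Partition.ext h
    · right; right; right; left; exact Nat.Partition.ext h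
    · right; right; right; right; left; exact Nat.Partition.ext h
    · right; right; right; right; right; left; exact Nat.Partition.ext h
    · right; right; right; right; right; right; exact Nat.Partition.ext h
  · rintro (h | h | h | h | h | h | h) <;> subst h <;> decide

theorem sum6 {M : Type*} [AddCommMonoid M] (f : Nat.Partition 6 → M) :
    ∑ μ : Nat.Partition 6 with μ.parts.card ≤ 3, f μ =
      f q6 + (f q51 + (f p42 + (f q411 + (f q33 + (f p321 + f q222))))) := by
  have ne : ∀ a b : Nat.Partition 6, a.parts ≠ b.parts → a ≠ b := fun a b h e => h (by rw [e])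
  rw [enum6, Finset.sum_insert, Finset.sum_insert, Finset.sum_insert, Finset.sum_insert,
    Finset.sum_insert, Finset.sum_insert, Finset.sum_singleton]
  all_goals
    simp only [Finset.mem_insert, Finset.mem_singleton, not_or]
    repeat' apply And.intro
    all_goals
      apply ne
      decide
end parts

section all
variable {F : Type*} [Field F] (t : F) (x : Fin 3 → F) (ht : 1 - t ≠ 0) (ht2 : 1 + t ≠ 0)
  (ht3 : 1 + t + t ^ 2 ≠ 0) (h01 : x 0 ≠ x 1) (h02 : x 0 ≠ x 2) (h12 : x 1 ≠ x 2)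
include ht ht2 ht3 h01 h02 h12

theorem e6 : hallLittlewoodP t x q6 = P6 t (x 0) (x 1) (x 2) := by
  rw [hlP t x q6 _ _ _ v6, s6 t _ _ _ h01 h02 h12]
  have : (∏ k ∈ range 7, vfac t (#{i : Fin 3 | ![6, 0, 0] i = k})) = 1 + t := by
    simp only [Finset.prod_range_succ, Finset.prod_range_zero]
    have c0 : #{i : Fin 3 | ![6, 0, 0] i = 0} = 2 := by decide
    have c1 : #{i : Fin 3 | ![6, 0, 0] i = 1} = 0 := by decide
    have c2 : #{i : Fin 3 | ![6, 0, 0] i = 2} = 0 := by decide
    have c3 : #{i : Fin 3 | ![6, 0, 0] i = 3} = 0 := by decide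
    have c4 : #{i : Fin 3 | ![6, 0, 0] i = 4} = 0 := by decide
    have c5 : #{i : Fin 3 | ![6, 0, 0] i = 5} = 0 := by decide
    have c6 : #{i : Fin 3 | ![6, 0, 0] i = 6} = 1 := by decide
    rw [c0, c1, c2, c3, c4, c5, c6]
    simp only [vfac0, vfac1 t ht, vfac2 t ht, vfac3 t ht]
    ring
  rw [this]
  field_simp

theorem e51 : hallLittlewoodP t x q51 = P51 t (x 0) (x 1) (x 2) := by
  rw [hlP t x q51 _ _ _ v51, s51 t _ _ _ h01 h02 h12]
  have : (∏ k ∈ range 7, vfac t (#{i : Fin 3 | ![5, 1, 0] i = k})) = 1 := by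
    simp only [Finset.prod_range_succ, Finset.prod_range_zero]
    have c0 : #{i : Fin 3 | ![5, 1, 0] i = 0} = 1 := by decide
    have c1 : #{i : Fin 3 | ![5, 1, 0] i = 1} = 1 := by decide
    have c2 : #{i : Fin 3 | ![5, 1, 0] i = 2} = 0 := by decide
    have c3 : #{i : Fin 3 | ![5, 1, 0] i = 3} = 0 := by decide
    have c4 : #{i : Fin 3 | ![5, 1, 0] i = 4} = 0 := by decide
    have c5 : #{i : Fin 3 | ![5, 1, 0] i = 5} = 1 := by decide
    have c6 : #{i : Fin 3 | ![5, 1, 0] i = 6} = 0 := by decide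
    rw [c0, c1, c2, c3, c4, c5, c6]
    simp only [vfac0, vfac1 t ht, vfac2 t ht, vfac3 t ht]
    ring
  rw [this]
  field_simp

theorem e42 : hallLittlewoodP t x p42 = P42 t (x 0) (x 1) (x 2) := by
  rw [hlP t x p42 _ _ _ v42, s42 t _ _ _ h01 h02 h12]
  have : (∏ k ∈ range 7, vfac t (#{i : Fin 3 | ![4, 2, 0] i = k})) = 1 := by
    simp only [Finset.prod_range_succ, Finset.prod_range_zero]
    have c0 : #{i : Fin 3 | ![4, 2, 0] i = 0} = 1 := by decide
    have c1 : #{i : Fin 3 | ![4, 2, 0] i = 1} = 0 := by decide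
    have c2 : #{i : Fin 3 | ![4, 2, 0] i = 2} = 1 := by decide
    have c3 : #{i : Fin 3 | ![4, 2, 0] i = 3} = 0 := by decide
    have c4 : #{i : Fin 3 | ![4, 2, 0] i = 4} = 1 := by decide
    have c5 : #{i : Fin 3 | ![4, 2, 0] i = 5} = 0 := by decide
    have c6 : #{i : Fin 3 | ![4, 2, 0] i = 6} = 0 := by decide
    rw [c0, c1, c2, c3, c4, c5, c6]
    simp only [vfac0, vfac1 t ht, vfac2 t ht, vfac3 t ht]
    ring
  rw [this]
  field_simp

theorem e411 : hallLittlewoodP t x q411 = P411 t (x 0) (x 1) (x 2) := by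
  rw [hlP t x q411 _ _ _ v411, s411 t _ _ _ h01 h02 h12]
  have : (∏ k ∈ range 7, vfac t (#{i : Fin 3 | ![4, 1, 1] i = k})) = 1 + t := by
    simp only [Finset.prod_range_succ, Finset.prod_range_zero]
    have c0 : #{i : Fin 3 | ![4, 1, 1] i = 0} = 0 := by decide
    have c1 : #{i : Fin 3 | ![4, 1, 1] i = 1} = 2 := by decide
    have c2 : #{i : Fin 3 | ![4, 1, 1] i = 2} = 0 := by decide
    have c3 : #{i : Fin 3 | ![4, 1, 1] i = 3} = 0 := by decide
    have c4 : #{i : Fin 3 | ![4, 1, 1] i = 4} = 1 := by decide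
    have c5 : #{i : Fin 3 | ![4, 1, 1] i = 5} = 0 := by decide
    have c6 : #{i : Fin 3 | ![4, 1, 1] i = 6} = 0 := by decide
    rw [c0, c1, c2, c3, c4, c5, c6]
    simp only [vfac0, vfac1 t ht, vfac2 t ht, vfac3 t ht]
    ring
  rw [this]
  field_simp

theorem e33 : hallLittlewoodP t x q33 = P33 t (x 0) (x 1) (x 2) := by
  rw [hlP t x q33 _ _ _ v33, s33 t _ _ _ h01 h02 h12]
  have : (∏ k ∈ range 7, vfac t (#{i : Fin 3 | ![3, 3, 0] i = k})) = 1 + t := by
    simp only [Finset.prod_range_succ, Finset.prod_range_zero]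
    have c0 : #{i : Fin 3 | ![3, 3, 0] i = 0} = 1 := by decide
    have c1 : #{i : Fin 3 | ![3, 3, 0] i = 1} = 0 := by decide
    have c2 : #{i : Fin 3 | ![3, 3, 0] i = 2} = 0 := by decide
    have c3 : #{i : Fin 3 | ![3, 3, 0] i = 3} = 2 := by decide
    have c4 : #{i : Fin 3 | ![3, 3, 0] i = 4} = 0 := by decide
    have c5 : #{i : Fin 3 | ![3, 3, 0] i = 5} = 0 := by decide
    have c6 : #{i : Fin 3 | ![3, 3, 0] i = 6} = 0 := by decide
    rw [c0, c1, c2, c3, c4, c5, c6]
    simp only [vfac0, vfac1 t ht, vfac2 t ht, vfac3 t ht]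
    ring
  rw [this]
  field_simp

theorem e321 : hallLittlewoodP t x p321 = P321 t (x 0) (x 1) (x 2) := by
  rw [hlP t x p321 _ _ _ v321, s321 t _ _ _ h01 h02 h12]
  have : (∏ k ∈ range 7, vfac t (#{i : Fin 3 | ![3, 2, 1] i = k})) = 1 := by
    simp only [Finset.prod_range_succ, Finset.prod_range_zero]
    have c0 : #{i : Fin 3 | ![3, 2, 1] i = 0} = 0 := by decide
    have c1 : #{i : Fin 3 | ![3, 2, 1] i = 1} = 1 := by decide
    have c2 : #{i : Fin 3 | ![3, 2, 1] i = 2} = 1 := by decide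
    have c3 : #{i : Fin 3 | ![3, 2, 1] i = 3} = 1 := by decide
    have c4 : #{i : Fin 3 | ![3, 2, 1] i = 4} = 0 := by decide
    have c5 : #{i : Fin 3 | ![3, 2, 1] i = 5} = 0 := by decide
    have c6 : #{i : Fin 3 | ![3, 2, 1] i = 6} = 0 := by decide
    rw [c0, c1, c2, c3, c4, c5, c6]
    simp only [vfac0, vfac1 t ht, vfac2 t ht, vfac3 t ht]
    ring
  rw [this]
  field_simp

theorem e222 : hallLittlewoodP t x q222 = P222 (x 0) (x 1) (x 2) := by
  rw [hlP t x q222 _ _ _ v222, s222 t _ _ _ h01 h02 h12]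
  have : (∏ k ∈ range 7, vfac t (#{i : Fin 3 | ![2, 2, 2] i = k})) = (1 + t) * (1 + t + t ^ 2) := by
    simp only [Finset.prod_range_succ, Finset.prod_range_zero]
    have c0 : #{i : Fin 3 | ![2, 2, 2] i = 0} = 0 := by decide
    have c1 : #{i : Fin 3 | ![2, 2, 2] i = 1} = 0 := by decide
    have c2 : #{i : Fin 3 | ![2, 2, 2] i = 2} = 3 := by decide
    have c3 : #{i : Fin 3 | ![2, 2, 2] i = 3} = 0 := by decide
    have c4 : #{i : Fin 3 | ![2, 2, 2] i = 4} = 0 := by decide
    have c5 : #{i : Fin 3 | ![2, 2, 2] i = 5} = 0 := by decide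
    have c6 : #{i : Fin 3 | ![2, 2, 2] i = 6} = 0 := by decide
    rw [c0, c1, c2, c3, c4, c5, c6]
    simp only [vfac0, vfac1 t ht, vfac2 t ht, vfac3 t ht]
    ring
  rw [this]
  field_simp

end all
end Pool.Agent.K9h63.SpinKostka
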