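import Pool.Agent.K9h63.SpinKostkaSum
open Finset
namespace Pool.Agent.K9h63.SpinKostka

theorem part42 (i : ℕ) : part p42 i = [4, 2].getD i 0 := part_eq p42 [4, 2] rfl (by decide) i

theorem diag42 : shiftedDiagram p42 = {(0, 0), (0, 1), (0, 2), (0, 3), (1, 1), (1, 2)} := by
  unfold shiftedDiagram
  simp only [part42]
  decide

def cellv : Fin 6 → ℕ × ℕ := ![(0, 0), (0, 1), (0, 2), (0, 3), (1, 1), (1, 2)]

theorem cellv_mem (i : Fin 6) : cellv i ∈ shiftedDiagram p42 := by
  rw [diag42]
  fin_cases i <;> decide

def cellD (i : Fin 6) : shiftedDiagram p42 := ⟨cellv i, cellv_mem i⟩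

theorem cellD_bij : Function.Bijective cellD := by
  constructor
  · intro i j h
    have h' : cellv i = cellv j := congrArg Subtype.val h
    revert i j
    decide
  · rintro ⟨c, hc⟩
    have hc' := hc
    rw [diag42] at hc'
    simp only [Finset.mem_insert, Finset.mem_singleton] at hc'
    rcases hc' with h | h | h | h | h | h
    · exact ⟨0, Subtype.ext h.symm⟩
    · exact ⟨1, Subtype.ext h.symm⟩
    · exact ⟨2, Subtype.ext h.symm⟩
    · exact ⟨3, Subtype.ext h.symm⟩
    · exact ⟨4, Subtype.ext h.symm⟩
    · exact ⟨5, Subtype.ext h.symm⟩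

noncomputable def cellE : Fin 6 ≃ shiftedDiagram p42 := Equiv.ofBijective cellD cellD_bij

abbrev A3 := Fin 3 ×ₗ Bool

/-- row step -/
def rowR (a b : A3) : Prop := a < b ∨ (a = b ∧ (ofLex a).2 = true)
/-- column step -/
def colR (a b : A3) : Prop := a < b ∨ (a = b ∧ (ofLex a).2 = false)
instance : DecidableRel rowR := fun a b => by unfold rowR; infer_instance
instance : DecidableRel colR := fun a b => by unfold colR; infer_instance

theorem valid_iff (T : shiftedDiagram p42 → A3) : IsMarkedShifted p42 T ↔
    (rowR (T (cellD 0)) (T (cellD 1)) ∧ rowR (T (cellD 1)) (T (cellD 2)) ∧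
     rowR (T (cellD 2)) (T (cellD 3)) ∧ rowR (T (cellD 4)) (T (cellD 5)) ∧
     colR (T (cellD 1)) (T (cellD 4)) ∧ colR (T (cellD 2)) (T (cellD 5))) := by
  have hv : ∀ i, ((cellD i : shiftedDiagram p42) : ℕ × ℕ) = cellv i := fun i => rfl
  constructor
  · intro h
    have row : ∀ i j : Fin 6, (cellv i).1 = (cellv j).1 → (cellv i).2 < (cellv j).2 →
        rowR (T (cellD i)) (T (cellD j)) := by
      intro i j h1 h2
      rcases (h.row_weak (cellD i) (cellD j) h1 h2.le).lt_or_eq with h3 | h3
      · exact Or.inl h3
      · refine Or.inr ⟨h3, h.row_repeat (cellD i) (cellD j) (fun e => ?_) h1 h3⟩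
        have : cellv i = cellv j := congrArg Subtype.val e
        rw [this] at h2
        exact lt_irrefl _ h2
    have col : ∀ i j : Fin 6, (cellv i).2 = (cellv j).2 → (cellv i).1 < (cellv j).1 →
        colR (T (cellD i)) (T (cellD j)) := by
      intro i j h1 h2
      rcases (h.col_weak (cellD i) (cellD j) h1 h2.le).lt_or_eq with h3 | h3
      · exact Or.inl h3
      · refine Or.inr ⟨h3, h.col_repeat (cellD i) (cellD j) (fun e => ?_) h1 h3⟩
        have : cellv i = cellv j := congrArg Subtype.val e
        rw [this] at h2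
        exact lt_irrefl _ h2
    exact ⟨row 0 1 (by decide) (by decide), row 1 2 (by decide) (by decide),
      row 2 3 (by decide) (by decide), row 4 5 (by decide) (by decide),
      col 1 4 (by decide) (by decide), col 2 5 (by decide) (by decide)⟩
  · rintro ⟨r01, r12, r23, r45, c14, c25⟩
    have rtr : ∀ a b c : A3, rowR a b → rowR b c → rowR a c := by
      rintro a b c (h | ⟨h, h'⟩) (k | ⟨k, k'⟩)
      · exact Or.inl (h.trans k)
      · exact Or.inl (k ▸ h)
      · exact Or.inl (h ▸ k)
      · exact Or.inr ⟨h.trans k, h'⟩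
    have r02 := rtr _ _ _ r01 r12
    have r13 := rtr _ _ _ r12 r23
    have r03 := rtr _ _ _ r02 r23
    have row : ∀ i j : Fin 6, (cellv i).1 = (cellv j).1 → (cellv i).2 < (cellv j).2 →
        rowR (T (cellD i)) (T (cellD j)) := by
      intro i j
      fin_cases i <;> fin_cases j <;> simp [cellv] <;> assumption
    have col : ∀ i j : Fin 6, (cellv i).2 = (cellv j).2 → (cellv i).1 < (cellv j).1 →
        colR (T (cellD i)) (T (cellD j)) := by
      intro i j
      fin_cases i <;> fin_cases j <;> simp [cellv] <;> assumption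
    have surj := cellD_bij.2
    have inj := cellD_bij.1
    constructor
    · intro c d h1 h2
      obtain ⟨i, rfl⟩ := surj c
      obtain ⟨j, rfl⟩ := surj d
      rcases h2.lt_or_eq with h3 | h3
      · rcases row i j h1 h3 with h4 | h4
        · exact h4.le
        · exact h4.1.le
      · have : cellD i = cellD j := Subtype.ext (Prod.ext h1 h3)
        rw [this]
    · intro c d h1 h2
      obtain ⟨i, rfl⟩ := surj c
      obtain ⟨j, rfl⟩ := surj d
      rcases h2.lt_or_eq with h3 | h3
      · rcases col i j h1 h3 with h4 | h4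
        · exact h4.le
        · exact h4.1.le
      · have : cellD i = cellD j := Subtype.ext (Prod.ext h3 h1)
        rw [this]
    · intro c d hne h1 h2
      obtain ⟨i, rfl⟩ := surj c
      obtain ⟨j, rfl⟩ := surj d
      have h5 : (cellv i).1 ≠ (cellv j).1 := fun e => hne (Subtype.ext (Prod.ext e h1))
      rcases lt_or_gt_of_ne h5 with h3 | h3
      · rcases col i j h1 h3 with h4 | h4
        · exact absurd h2 h4.ne
        · exact h4.2
      · rcases col j i h1.symm h3 with h4 | h4
        · exact absurd h2 h4.ne'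
        · rw [← h4.1]; exact h4.2
    · intro c d hne h1 h2
      obtain ⟨i, rfl⟩ := surj c
      obtain ⟨j, rfl⟩ := surj d
      have h5 : (cellv i).2 ≠ (cellv j).2 := fun e => hne (Subtype.ext (Prod.ext h1 e))
      rcases lt_or_gt_of_ne h5 with h3 | h3
      · rcases row i j h1 h3 with h4 | h4
        · exact absurd h2 h4.ne
        · exact h4.2
      · rcases row j i h1.symm h3 with h4 | h4
        · exact absurd h2 h4.ne'
        · rw [← h4.1]; exact h4.2

end Pool.Agent.K9h63.SpinKostka
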